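import Pool.Agent.Work.MP_64ea0f_cs.InterfaceC

set_option autoImplicit false

/-! # Block C_AX: the results on axes in right-angled Coxeter groups -/

namespace Pool.CS

theorem ax_rsub_univ {Λ : Type} (G : SimpleGraph Λ) (x : RC G) : x ∈ rsub G Set.univ := by
  refine rac_induction x (Subgroup.one_mem _) fun a c hc => ?_
  exact Subgroup.mul_mem _ (Subgroup.subset_closure ⟨a, Set.mem_univ a, rfl⟩) hc

theorem ax_mem_word {Λ : Type} {G : SimpleGraph Λ} (H : Per G) (t : Λ) :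
    t ∈ H.word ↔ ∃ i : ℤ, H.s i = t := by
  constructor
  · intro h
    rw [Per.word, List.mem_map] at h
    obtain ⟨i, -, hi⟩ := h
    exact ⟨_, hi⟩
  · rintro ⟨m, rfl⟩
    have hk : (0 : ℤ) < H.k := by exact_mod_cast H.pos
    rw [Per.word, List.mem_map]
    have h1 := Int.emod_nonneg (m - 1) hk.ne'
    have h2 := Int.emod_lt_of_pos (m - 1) hk
    refine ⟨((m - 1) % (H.k : ℤ)).toNat, ?_, ?_⟩
    · rw [List.mem_range]
      omega
    · have h3 : (((m - 1) % (H.k : ℤ)).toNat : ℤ) = (m - 1) % (H.k : ℤ) := Int.toNat_of_nonneg h1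
      rw [h3]
      have hp : Function.Periodic H.s (H.k : ℤ) := fun i => H.per i
      have h4 := (hp.int_mul ((m - 1) / (H.k : ℤ))) ((m - 1) % (H.k : ℤ) + 1)
      rw [← h4]
      congr 1
      have h5 := Int.emod_add_mul_ediv (m - 1) (H.k : ℤ)
      have h6 : (m - 1) / (H.k : ℤ) * (H.k : ℤ) = (H.k : ℤ) * ((m - 1) / (H.k : ℤ)) :=
        mul_comm _ _
      push_cast
      linarith

theorem c_ax_thm (hMIN : Stmt_C_MIN) (hNOI : Stmt_C_NOI) (hAXA : Stmt_C_AXA)
    (hAXB : Stmt_C_AXB) : Stmt_C_AX := by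
  intro Λ _ G I g hg
  rcases hMIN Λ G I (g ^ 2) (Subgroup.pow_mem _ hg 2) with h1 | ⟨a, ha, H, hI, h2⟩
  · refine ⟨1, Subgroup.one_mem _, [], by simp, ?_, by simp, ⟨⊤, 1, inferInstance, ?_⟩, by simp⟩
    · rw [h1, wp_nil]
      simp
    · intro g' _ _
      have h3 : {b : Λ | ∀ t ∈ ([] : List Λ), G.Adj b t} = Set.univ := by
        ext b
        simp
      rw [h3]
      exact ax_rsub_univ G _
  · have hni := hNOI Λ G a g H h2
    have hlen : H.word.length = H.k := by simp [Per.word]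
    refine ⟨a, ha, H.word, ?_, h2, ?_, hAXB Λ G H hni, ?_⟩
    · intro t ht
      obtain ⟨i, rfl⟩ := (ax_mem_word H t).1 ht
      exact hI i
    · intro n b l hl
      rw [hlen]
      exact hAXA Λ G H hni n b l hl
    · intro s hs
      obtain ⟨i, rfl⟩ := (ax_mem_word H s).1 hs
      have h3 := hni i
      unfold Per.iso at h3
      push Not at h3
      obtain ⟨m, hm1, hm2⟩ := h3
      exact ⟨H.s m, (ax_mem_word H _).2 ⟨m, rfl⟩, hm1, hm2⟩

end Pool.CS
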