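import Pool.Agent.Work.MP_64ea0f_cs.InterfaceC

set_option autoImplicit false

/-! # Block C_IVT: the core which is invariant under retractions -/

namespace Pool.CS

open Classical in
theorem ivt_rret_rret {Λ : Type} (G : SimpleGraph Λ) (I J : Set Λ) (x : RC G) :
    rret G J (rret G I x) = rret G (I ∩ J) x := by
  have h : (rret G J).comp (rret G I) = rret G (I ∩ J) := by
    refine rc_hom_ext fun a => ?_
    rw [MonoidHom.comp_apply]
    by_cases hI : a ∈ I
    · rw [rret_rg_mem G hI]
      by_cases hJ : a ∈ J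
      · rw [rret_rg_mem G hJ, rret_rg_mem G (Set.mem_inter hI hJ)]
      · rw [rret_rg_not G hJ, rret_rg_not G fun h => hJ h.2]
    · rw [rret_rg_not G hI, map_one, rret_rg_not G fun h => hI h.1]
  rw [← h, MonoidHom.comp_apply]

theorem ivt_rret_univ {Λ : Type} (G : SimpleGraph Λ) (x : RC G) :
    rret G Set.univ x = x := by
  have h : rret G Set.univ = MonoidHom.id (RC G) := by
    refine rc_hom_ext fun a => ?_
    rw [rret_rg_mem G (Set.mem_univ a), MonoidHom.id_apply]
  rw [h, MonoidHom.id_apply]

theorem c_ivt_thm : Stmt_C_IVT := by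
  intro Λ _ G M₁ hn hf
  refine ⟨⨅ I : Set Λ, M₁.comap (rret G I), ?_, ?_, ?_, ?_⟩
  · intro x hx
    have h := (Subgroup.mem_iInf.1 hx) Set.univ
    rw [Subgroup.mem_comap, ivt_rret_univ] at h
    exact h
  · exact Subgroup.normal_iInf_normal fun I => hn.comap _
  · refine Subgroup.finiteIndex_iInf fun I => ?_
    refine ⟨?_⟩
    rw [Subgroup.index_comap]
    exact fun h => hf.index_ne_zero (Subgroup.index_eq_zero_of_relIndex_eq_zero h)
  · intro I x hx
    rw [Subgroup.mem_iInf] at hx ⊢
    intro J
    rw [Subgroup.mem_comap, ivt_rret_rret]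
    exact Subgroup.mem_comap.1 (hx (I ∩ J))

end Pool.CS
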