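import Pool.Agent.Work.MP_64ea0f_cs.InterfaceA

set_option autoImplicit false

/-! # Block RES: the root system of a standard parabolic subgroup -/

namespace Pool.CS

namespace ResH

variable (D : Rd) (J : Set D.S)

open Classical in
/-- extension by zero -/
noncomputable def ext : (↥J → ℝ) →ₗ[ℝ] D.V where
  toFun v := fun s => if h : s ∈ J then v ⟨s, h⟩ else 0
  map_add' v w := by
    funext s
    by_cases h : s ∈ J <;> simp [h]
  map_smul' a v := by
    funext s
    by_cases h : s ∈ J <;> simp [h]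

/-- restriction -/
def res : D.V →ₗ[ℝ] (↥J → ℝ) where
  toFun v := fun s => v s.1
  map_add' _ _ := rfl
  map_smul' _ _ := rfl

variable {D J}

theorem ext_mem (v : ↥J → ℝ) (s : ↥J) : ext D J v s.1 = v s := by
  simp [ext]

theorem ext_not (v : ↥J → ℝ) (s : D.S) (h : s ∉ J) : ext D J v s = 0 := by
  simp [ext, h]

theorem res_ext (v : ↥J → ℝ) : res D J (ext D J v) = v := by
  funext s
  exact ext_mem v s

theorem ext_res (v : D.V) (h : D.In J v) : ext D J (res D J v) = v := by
  funext s
  by_cases hs : s ∈ J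
  · exact ext_mem (res D J v) ⟨s, hs⟩
  · rw [ext_not _ s hs, h s hs]

theorem ext_single (s : ↥J) : ext D J (Pi.single s 1) = D.e s.1 := by
  funext t
  by_cases ht : t ∈ J
  · have h := ext_mem (D := D) (J := J) (Pi.single s 1) ⟨t, ht⟩
    rw [show ext D J (Pi.single s 1) t = (Pi.single s 1 : ↥J → ℝ) ⟨t, ht⟩ from h]
    by_cases hst : t = s.1
    · subst hst
      simp [Rd.e]
    · have h2 : (⟨t, ht⟩ : ↥J) ≠ s := fun h => hst (congrArg Subtype.val h)
      simp [Rd.e, hst, h2]
  · rw [ext_not _ t ht]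
    have h2 : t ≠ s.1 := fun h => ht (h ▸ s.2)
    simp [Rd.e, h2]

theorem sum_ext [Fintype ↥J] (v : ↥J → ℝ) (g : D.S → ℝ) :
    ∑ s : ↥J, v s * g s.1 = ∑ s, ext D J v s * g s := by
  refine Fintype.sum_of_injective Subtype.val Subtype.val_injective _ _ ?_ ?_
  · intro s hs
    have h : s ∉ J := fun h => hs ⟨⟨s, h⟩, rfl⟩
    rw [ext_not _ s h, zero_mul]
  · intro s
    rw [ext_mem]

theorem bform_ext [Fintype ↥J] (v w : ↥J → ℝ) :
    bform (fun s t : ↥J => D.k s.1 t.1) v w = D.B (ext D J v) (ext D J w) := by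
  unfold Rd.B bform
  have h1 : ∀ s : ↥J, ∑ t : ↥J, v s * w t * D.k s.1 t.1 =
      v s * ∑ t, ext D J w t * D.k s.1 t := by
    intro s
    rw [← sum_ext w (fun t => D.k s.1 t), Finset.mul_sum]
    exact Finset.sum_congr rfl fun t _ => by ring
  simp only [h1]
  rw [sum_ext v (fun s => ∑ t, ext D J w t * D.k s t)]
  refine Finset.sum_congr rfl fun s _ => ?_
  rw [Finset.mul_sum]
  exact Finset.sum_congr rfl fun t _ => by ring

theorem In_ext (v : ↥J → ℝ) : D.In J (ext D J v) := fun s hs => ext_not v s hs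

theorem In_act (h : ∀ w ∈ D.par J, ∀ v, D.In J (D.ρ w v - v)) (w : D.W) (hw : w ∈ D.par J)
    (v : D.V) (hv : D.In J v) : D.In J (D.ρ w v) := by
  intro s hs
  have h1 := h w hw v s hs
  have h2 := hv s hs
  simp only [Pi.sub_apply] at h1
  linarith

/-- the restricted representation -/
noncomputable def rep (h : ∀ w ∈ D.par J, ∀ v, D.In J (D.ρ w v - v)) :
    ↥(D.par J) →* Module.End ℝ (↥J → ℝ) where
  toFun w := res D J ∘ₗ D.ρ w.1 ∘ₗ ext D J
  map_one' := by
    refine LinearMap.ext fun v => ?_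
    simp only [Subgroup.coe_one, map_one, LinearMap.comp_apply, Module.End.one_apply]
    exact res_ext v
  map_mul' w w' := by
    refine LinearMap.ext fun v => ?_
    simp only [Subgroup.coe_mul, map_mul, LinearMap.comp_apply, Module.End.mul_apply]
    rw [ext_res _ (In_act h _ w'.2 _ (In_ext v))]

theorem rep_apply (h : ∀ w ∈ D.par J, ∀ v, D.In J (D.ρ w v - v)) (w : ↥(D.par J))
    (v : ↥J → ℝ) : rep h w v = res D J (D.ρ w.1 (ext D J v)) := rfl

theorem rep_single (h : ∀ w ∈ D.par J, ∀ v, D.In J (D.ρ w v - v)) (w : ↥(D.par J))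
    (s t : ↥J) : rep h w (Pi.single s 1) t = D.ρ w.1 (Pi.single s.1 1) t.1 := by
  rw [rep_apply, ext_single]
  rfl

/-- the root system of a standard parabolic subgroup -/
noncomputable def rd (h : ∀ w ∈ D.par J, ∀ v, D.In J (D.ρ w v - v)) : Rd where
  S := ↥J
  fS := Fintype.ofFinite ↥J
  dS := inferInstance
  W := ↥(D.par J)
  gW := inferInstance
  k := fun s t => D.k s.1 t.1
  σ := fun s => ⟨D.σ s.1, Subgroup.subset_closure ⟨s.1, s.2, rfl⟩⟩
  ρ := rep h
  symm := fun s t => D.symm s.1 t.1
  diag := fun s => D.diag s.1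
  off := fun s t hst => D.off s.1 t.1 fun he => hst (Subtype.ext he)
  refl := by
    intro s v
    let _ : Fintype ↥J := Fintype.ofFinite ↥J
    rw [rep_apply, D.refl s.1 (ext D J v), bform_ext, ext_single]
    funext t
    have h1 : (Pi.single s 1 : ↥J → ℝ) t = D.e s.1 t.1 := by
      rw [← ext_single, ext_mem]
    have h2 : ext D J v t.1 = v t := ext_mem v t
    simp only [Pi.sub_apply, Pi.smul_apply, h1, ← h2]
    rfl
  gen := by
    have h1 : (Set.range fun s : ↥J =>
        (⟨D.σ s.1, Subgroup.subset_closure ⟨s.1, s.2, rfl⟩⟩ : ↥(D.par J))) =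
        ((↑) : ↥(Subgroup.closure (D.σ '' J)) → D.W) ⁻¹' (D.σ '' J) := by
      ext x
      constructor
      · rintro ⟨s, rfl⟩
        exact ⟨s.1, s.2, rfl⟩
      · rintro ⟨s, hs, hx⟩
        exact ⟨⟨s, hs⟩, Subtype.ext hx⟩
    rw [h1]
    exact Subgroup.closure_closure_coe_preimage
  sign := by
    intro w s
    simp only [rep_single]
    rcases D.sign w.1 s.1 with h1 | h1
    · exact Or.inl fun t => h1 t.1
    · exact Or.inr fun t => h1 t.1
  triv := by
    intro w hw
    simp only [rep_single] at hw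
    refine Subtype.ext (D.triv w.1 fun s t => ?_)
    by_cases hs : s ∈ J
    · by_cases ht : t ∈ J
      · exact hw ⟨s, hs⟩ ⟨t, ht⟩
      · have h1 := h w.1 w.2 (Pi.single s 1) t ht
        have h2 : t ≠ s := fun he => ht (he ▸ hs)
        have h3 : (Pi.single s 1 : D.S → ℝ) t = 0 := by simp [h2]
        simp only [Pi.sub_apply] at h1
        linarith
    · rcases D.sign w.1 s with h1 | h1
      · exact h1 t
      · have h2 := h w.1 w.2 (Pi.single s 1) s hs
        have h3 : (Pi.single s 1 : D.S → ℝ) s = 1 := by simp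
        simp only [Pi.sub_apply] at h2
        have h4 := h1 s
        linarith
  intg := by
    obtain ⟨A, hA, h1⟩ := D.intg
    exact ⟨A, hA, fun s t => h1 s.1 t.1⟩

theorem rd_B (h : ∀ w ∈ D.par J, ∀ v, D.In J (D.ρ w v - v)) (v w : ↥J → ℝ) :
    (rd h).B v w = D.B (ext D J v) (ext D J w) := by
  let _ : Fintype ↥J := Fintype.ofFinite ↥J
  exact bform_ext v w

theorem rd_e (h : ∀ w ∈ D.par J, ∀ v, D.In J (D.ρ w v - v)) (s : ↥J) :
    ext D J ((rd h).e s) = D.e s.1 := ext_single s

theorem rd_AF (h : ∀ w ∈ D.par J, ∀ v, D.In J (D.ρ w v - v)) (haf : D.AF) :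
    (rd h).AF := by
  intro v hv h0
  obtain ⟨hv1, hv2⟩ := hv
  have h1 : ext D J v = 0 := by
    refine haf (ext D J v) ⟨?_, ?_⟩ ?_
    · intro s
      by_cases hs : s ∈ J
      · have := hv1 ⟨s, hs⟩
        rw [← ext_mem v ⟨s, hs⟩] at this
        exact this
      · rw [ext_not v s hs]
    · intro s
      by_cases hs : s ∈ J
      · have h2 := hv2 ⟨s, hs⟩
        have h3 := rd_B h v ((rd h).e ⟨s, hs⟩)
        rw [rd_e] at h3
        rw [← h3]
        exact h2
      · have h3 : D.B (ext D J v) (D.e s) = ∑ t, ext D J v t * D.k t s := by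
          unfold Rd.B bform Rd.e
          refine Finset.sum_congr rfl fun t _ => ?_
          rw [Finset.sum_eq_single s]
          · simp
          · intro r _ hr
            simp [hr]
          · intro hn
            exact absurd (Finset.mem_univ s) hn
        rw [h3]
        refine Finset.sum_nonpos fun t _ => ?_
        by_cases ht : t ∈ J
        · have h4 : t ≠ s := fun he => hs (he ▸ ht)
          have h5 : 0 ≤ ext D J v t := by
            have := hv1 ⟨t, ht⟩
            rw [← ext_mem v ⟨t, ht⟩] at this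
            exact this
          exact mul_nonpos_of_nonneg_of_nonpos h5 (D.off t s h4)
        · rw [ext_not v t ht, zero_mul]
    · have h3 := rd_B h v v
      rw [← h3]
      exact h0
  have h2 : v = res D J (ext D J v) := (res_ext v).symm
  rw [h2, h1, map_zero]
  rfl

end ResH

theorem res_thm (_h1 : Stmt_BAS) (h2 : Stmt_PAR) (_h3 : Stmt_RNK) : Stmt_RES := by
  intro D J
  obtain ⟨-, -, h, -⟩ := h2 D J
  refine ⟨ResH.rd h, Subtype.val, (D.par J).subtype, Subtype.val_injective,
    Subtype.range_coe, Subgroup.subtype_injective _, Subgroup.range_subtype _,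
    fun _ _ => rfl, fun _ => rfl, ?_⟩
  exact ResH.rd_AF h

end Pool.CS
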