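import Pool.Agent.Work.MP_64ea0f_cs.InterfaceG3

set_option autoImplicit false

/-! # Block FRE: freeness of the action on classes -/

namespace Pool.CS

namespace FRE

variable {D : Rd}

theorem ρ_inv_ρ (w : D.W) (v : D.V) : D.ρ w⁻¹ (D.ρ w v) = v := by
  rw [← Module.End.mul_apply, ← map_mul, inv_mul_cancel, map_one, Module.End.one_apply]

theorem ρ_ρ_inv (w : D.W) (v : D.V) : D.ρ w (D.ρ w⁻¹ v) = v := by
  rw [← Module.End.mul_apply, ← map_mul, mul_inv_cancel, map_one, Module.End.one_apply]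

theorem ρ_mul (w w' : D.W) (v : D.V) : D.ρ (w * w') v = D.ρ w (D.ρ w' v) := by
  rw [map_mul, Module.End.mul_apply]

theorem ρ_inj (w : D.W) {v v' : D.V} (h : D.ρ w v = D.ρ w v') : v = v' := by
  rw [← ρ_inv_ρ w v, h, ρ_inv_ρ]

/-- the height as a linear functional -/
noncomputable def htL (D : Rd) : D.V →ₗ[ℝ] ℝ where
  toFun := D.ht
  map_add' v w := by simp [Rd.ht, Finset.sum_add_distrib]
  map_smul' a v := by simp [Rd.ht, Finset.mul_sum]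

theorem exists_functional {δ : D.V} (h : D.Af δ) : ∃ f : D.V →ₗ[ℝ] ℝ, f δ = 1 := by
  obtain ⟨g, u, hu, rfl⟩ := h
  refine ⟨htL D ∘ₗ D.ρ g⁻¹, ?_⟩
  rw [LinearMap.comp_apply, ρ_inv_ρ]
  exact hu.2.2.1

theorem af_act {δ : D.V} (h : D.Af δ) (n : D.W) : D.Af (D.ρ n δ) := by
  obtain ⟨g, u, hu, rfl⟩ := h
  exact ⟨n * g, u, hu, (ρ_mul n g u).symm⟩

/-- a root is nonnegative or nonpositive -/
theorem rt_sign {φ : D.V} (h : φ ∈ D.Rt) : (∀ t, 0 ≤ φ t) ∨ (∀ t, φ t ≤ 0) := by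
  obtain ⟨w, s, rfl⟩ := h
  exact D.sign w s

end FRE

open FRE in
theorem fre_thm : Stmt_RD2 → Stmt_EQV → Stmt_MSA → Stmt_FR1 → Stmt_NRT → Stmt_YJ2 → Stmt_THR →
    Stmt_VX1 → Stmt_LSX → Stmt_DEV → Stmt_NRM → Stmt_FRE := by
  classical
  intro hRD2 _ hMSA hFR1 hNRT _ hTHR hVX1 hLSX hDEV hNRM D K hK C N hOk H hH x hx h hh hhK hE
  obtain ⟨z, hz, hzx, hzhx⟩ := hE
  obtain ⟨v1, v2, v3, v4, v5, v6, v7, v8, v9, v10, v11⟩ := hVX1 D
  obtain ⟨n1, n2, n3, n4, n5, n6, n7⟩ := hNRM D K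
  obtain ⟨r1, r2, r3, r4⟩ := hRD2 D K hK C N hOk
  obtain ⟨m1, m2, m3, m4, m5, m6, m7⟩ := hMSA D K hK N
  have hFR := hFR1 D K hK C N hOk
  obtain ⟨-, -, nt3⟩ := hNRT D K C
  have hpow : ∀ j : ℕ, h ^ j ∈ D.NJ K := by
    intro j
    induction j with
    | zero => rw [pow_zero]; exact n4
    | succ j ih => rw [pow_succ]; exact n6 _ ih _ hhK
  have act_inv : ∀ (n : D.W) (y : Set D.V), D.act n⁻¹ (D.act n y) = y := by
    intro n y
    rw [← v4, inv_mul_cancel, v3]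
  -- transport
  have far_act : ∀ y δ, D.Far K C y δ → ∀ n ∈ D.NJ K, D.Far K C (D.act n y) (D.ρ n δ) := by
    intro y δ hf n hn
    refine ⟨af_act hf.1 n, fun hnear => hf.2 ?_⟩
    have h1 := nt3 (D.act n y) (D.ρ n δ) (af_act hf.1 n) n⁻¹ (n5 n hn) hnear
    rw [act_inv, ρ_inv_ρ] at h1
    exact h1
  have red_act : ∀ y, D.Red K C N y → ∀ n ∈ D.NJ K, D.Red K C N (D.act n y) := by
    intro y hy n hn
    refine ⟨?_, ?_⟩
    · obtain ⟨Δ, ν, h1⟩ := m4 y y (m7 y hy.1) n hn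
      exact h1.vx
    · intro δ hf w hw hnear
      have h1 := far_act _ _ hf n⁻¹ (n5 n hn)
      rw [act_inv] at h1
      have h2 := m4 _ _ hw n⁻¹ (n5 n hn)
      rw [act_inv] at h2
      exact hy.2 _ h1 _ h2 (nt3 w δ hf.1 n⁻¹ (n5 n hn) hnear)
  have hzh : D.Red K C N (D.act h z) := red_act z hz h hhK
  have hmr : D.MR K N (D.act h z) (D.act h x) := m4 _ _ hzx h hhK
  obtain ⟨Δ1, ν1, hsh1, hfar1⟩ := r2 z _ hz hzh _ hzhx hmr
  -- the far vectors of `z` are permuted by `h`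
  have stable : ∀ δ, D.Far K C z δ → D.Far K C z (D.ρ h δ) := by
    intro δ hf
    have h1 := far_act _ _ hf h hhK
    by_cases h2 : D.ρ h δ ∈ Δ1
    · exact (hfar1 _ h2).1
    · exact ((hFR.1 _ _ _ _ (m1 _ _ _ _ hsh1) _ h1).2 h2).2
  have stable' : ∀ (j : ℕ) (δ : D.V), D.Far K C z δ → D.Far K C z (D.ρ (h ^ j) δ) := by
    intro j
    induction j with
    | zero =>
      intro δ hf
      rw [pow_zero, map_one, Module.End.one_apply]
      exact hf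
    | succ j ih =>
      intro δ hf
      rw [pow_succ, ρ_mul]
      exact ih _ (stable _ hf)
  have hMRpow : ∀ j : ℕ, D.MR K N z (D.act (h ^ j) z) := by
    intro j
    induction j with
    | zero =>
      rw [pow_zero, v3]
      exact m7 z hz.1
    | succ j ih =>
      refine r3 z (D.act (h ^ j) z) _ hz (red_act z hz _ (hpow j)) ih ?_
      rw [pow_succ, v4]
      exact m4 _ _ ⟨Δ1, ν1, hsh1⟩ _ (hpow j)
  have hEfin : {δ | D.Far K C z δ}.Finite := hOk.2.2.2.1 z hz.1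
  -- directions
  have hdirs : ∀ δ, D.Af δ → ∃ A, D.Dirs δ A := by
    intro δ hδ
    by_cases hne : ∃ φ, φ ∈ D.Fd δ
    · obtain ⟨φ, hφ⟩ := hne
      exact (hTHR D δ hδ φ hφ).2.2.2.2.2.2.2.2.1
    · refine ⟨∅, by simp, fun φ hφ => absurd ⟨φ, hφ⟩ hne⟩
  let A : D.V → Finset D.V := fun δ => if hδ : D.Af δ then (hdirs δ hδ).choose else ∅
  have hA : ∀ δ, D.Af δ → D.Dirs δ (A δ) := by
    intro δ hδ
    simp only [A, dif_pos hδ]
    exact (hdirs δ hδ).choose_spec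
  -- the finite set of pairs
  have hPfin : {p : D.V × D.V | D.Far K C z p.1 ∧ p.2 ∈ A p.1}.Finite := by
    refine (hEfin.biUnion (t := fun δ => Prod.mk δ '' (A δ : Set D.V))
      fun δ _ => (A δ).finite_toSet.image _).subset ?_
    rintro ⟨δ, α⟩ ⟨h1, h2⟩
    exact Set.mem_biUnion h1 ⟨α, h2, rfl⟩
  let P : Type := {p : D.V × D.V // D.Far K C z p.1 ∧ p.2 ∈ A p.1}
  have hPf : Finite P := hPfin.to_subtype
  have hF : ∀ (j : ℕ) (p : P), ∃ q : P, q.1.1 = D.ρ (h ^ j) p.1.1 ∧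
      ∃ t : ℝ, D.ρ (h ^ j) p.1.2 = q.1.2 + t • q.1.1 := by
    rintro j ⟨⟨δ, α⟩, hδ, hα⟩
    have h1 := (hA δ hδ.1).1 α hα
    have h2 := ((hTHR D δ hδ.1 α h1).2.2.2.2.2.2.2.2.2 (h ^ j)).2.1
    obtain ⟨β, ⟨hβ, t, ht⟩, -⟩ := (hA _ (af_act hδ.1 (h ^ j))).2 _ h2
    exact ⟨⟨(D.ρ (h ^ j) δ, β), stable' j δ hδ, hβ⟩, rfl, t, ht⟩
  choose F hF1 hF2 using hF
  obtain ⟨i0, j0, hij, hFF⟩ : ∃ i j : ℕ, i < j ∧ F i = F j := by
    obtain ⟨i, j, hne, he⟩ := Finite.exists_ne_map_eq_of_infinite F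
    rcases lt_or_gt_of_ne hne with h1 | h1
    · exact ⟨i, j, h1, he⟩
    · exact ⟨j, i, h1, he.symm⟩
  obtain ⟨k, hk0, rfl⟩ : ∃ k, 0 < k ∧ j0 = i0 + k := ⟨j0 - i0, by omega, by omega⟩
  have hP1 : ∀ p : P, D.ρ (h ^ k) p.1.1 = p.1.1 := by
    intro p
    refine ρ_inj (h ^ i0) ?_
    rw [← ρ_mul, ← pow_add, ← hF1 (i0 + k) p, ← hF1 i0 p, hFF]
  have hP2 : ∀ p : P, ∃ t : ℝ, D.ρ (h ^ k) p.1.2 = p.1.2 + t • p.1.1 := by
    intro p
    obtain ⟨t1, ht1⟩ := hF2 i0 p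
    obtain ⟨t2, ht2⟩ := hF2 (i0 + k) p
    rw [← hFF] at ht2
    refine ⟨t2 - t1, ρ_inj (h ^ i0) ?_⟩
    rw [← ρ_mul, ← pow_add, ht2, map_add, map_smul, ht1, ← hF1 i0 p]
    module
  set g := h ^ k with hg
  have hgH : g ∈ H := H.pow_mem hh k
  have hgK : g ∈ D.NJ K := hpow k
  have hzg : D.Red K C N (D.act g z) := red_act z hz g hgK
  obtain ⟨Δ, ν, hsh, hfar⟩ := r2 z _ hz hzg _ (hMRpow k) (m7 _ hzg.1)
  -- the shift is trivial
  have key : ∀ δ ∈ Δ, ∀ φ ∈ D.Fd δ, ν δ φ = 0 := by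
    intro δ hδ
    have hfz := (hfar δ hδ).1
    have haf := hfz.1
    have hAd := hA δ haf
    have hshd := hsh.shd δ hδ
    by_cases hne : ∃ φ, φ ∈ D.Fd δ
    swap
    · intro φ hφ
      exact absurd ⟨φ, hφ⟩ hne
    have hρδ : D.ρ g δ = δ := by
      obtain ⟨φ, hφ⟩ := hne
      obtain ⟨α, ⟨hα, -⟩, -⟩ := hAd.2 φ hφ
      exact hP1 ⟨(δ, α), hfz, hα⟩
    obtain ⟨f, hf⟩ := exists_functional haf
    let χ : D.V →ₗ[ℝ] ℝ := f ∘ₗ (D.ρ g - 1)
    have hχ : ∀ v, χ v = f (D.ρ g v - v) := fun v => rfl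
    have hχδ : χ δ = 0 := by
      rw [hχ, hρδ, sub_self, map_zero]
    have hρφ : ∀ φ ∈ D.Fd δ, D.ρ g φ = φ + χ φ • δ := by
      intro φ hφ
      obtain ⟨α, ⟨hα, t, ht⟩, -⟩ := hAd.2 φ hφ
      obtain ⟨s, hs⟩ := hP2 ⟨(δ, α), hfz, hα⟩
      have hs' : D.ρ g α = α + s • δ := hs
      have h1 : D.ρ g φ = φ + s • δ := by
        rw [ht, map_add, map_smul, hρδ, hs']
        module
      have h2 : χ φ = s := by
        rw [hχ, h1, add_sub_cancel_left, map_smul, hf, smul_eq_mul, mul_one]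
      rw [h2, h1]
    have hfix : ∀ φ ∈ D.Ps, D.In K φ → D.ρ g φ = φ := by
      intro φ hφ hK'
      obtain ⟨h1, h2⟩ := (hgK φ).1 ⟨hφ, hK'⟩
      exact hH.self z hz.1.1 φ _ (hz.1.2 φ hφ hK') (hz.1.2 _ h1 h2) ⟨g, hgH, Or.inl rfl⟩
    have hχK : ∀ φ ∈ D.Fd δ, D.In K φ → χ φ = 0 := by
      intro φ hφ hK'
      have h1 : D.ρ g φ = φ := by
        rcases rt_sign hφ.1 with hs | hs
        · exact hfix φ ⟨hφ.1, hs⟩ hK'
        · have h2 := (hTHR D δ haf φ hφ).2.2.2.1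
          have h3 := hfix (-φ) ⟨h2.1, fun t => by
            have := hs t
            simp only [Pi.neg_apply]
            linarith⟩ (fun s hs' => by
            have := hK' s hs'
            simp only [Pi.neg_apply]
            linarith)
          rw [map_neg] at h3
          exact neg_injective h3
      rw [hχ, h1, sub_self, map_zero]
    have hχν : ∀ φ ∈ D.Fd δ, χ φ = ν δ φ * D.cst δ φ := by
      intro φ hφ
      obtain ⟨t1, t2, t3, -, -, -, t7, -, -, t10⟩ := hTHR D δ haf φ hφ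
      have h1 : φ + χ φ • δ ∈ D.Rt := by
        rw [← hρφ φ hφ]
        have := (t10 g).2.1
        exact this.1
      obtain ⟨a, ha⟩ := (t2 _).1 h1
      obtain ⟨j, hj⟩ := t7 z hz.1.1
      have h2 : ∀ i : ℤ, j ≤ i - ν δ φ ↔ j ≤ i - a := by
        intro i
        set φi := φ + ((i : ℝ) * D.cst δ φ) • δ with hφi
        have hrt : φi ∈ D.Rt := (t2 _).2 ⟨i, rfl⟩
        obtain ⟨c1, c2⟩ := t3 _ hrt
        have c3 : ν δ φi = ν δ φ := hshd.dir φ hφ _ c2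
        have e1 := hsh.inn δ hδ φi c2
        rw [c3, c1] at e1
        have e2 : φi - ((ν δ φ : ℝ) * D.cst δ φ) • δ =
            φ + (((i - ν δ φ : ℤ) : ℝ) * D.cst δ φ) • δ := by
          rw [hφi]
          push_cast
          module
        rw [e2, hj] at e1
        have e3 := v6 g z φi
        have e4 : D.ρ g⁻¹ φi = φ + (((i - a : ℤ) : ℝ) * D.cst δ φ) • δ := by
          refine ρ_inj g ?_
          rw [ρ_ρ_inv, map_add, map_smul, hρδ, hρφ φ hφ, ha, hφi]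
          push_cast
          module
        rw [e4, hj] at e3
        exact e1.symm.trans e3
      have h3 := (h2 (j + ν δ φ)).1 (by omega)
      have h4 := (h2 (j + a)).2 (by omega)
      have h5 : a = ν δ φ := by omega
      rw [ha, h5]
    have hsum := hshd.ort (A δ) hAd χ hχδ hχK
    have hsq : ∑ α ∈ A δ, ((ν δ α : ℝ)) ^ 2 = 0 := by
      rw [← hsum]
      refine Finset.sum_congr rfl fun α hα => ?_
      have h1 := hAd.1 α hα
      have h2 := (hTHR D δ haf α h1).1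
      rw [hχν α h1]
      field_simp
    have hzero : ∀ α ∈ A δ, ν δ α = 0 := by
      intro α hα
      have h1 := (Finset.sum_eq_zero_iff_of_nonneg fun β _ => sq_nonneg ((ν δ β : ℝ))).1 hsq α hα
      have h2 : (ν δ α : ℝ) = 0 := by
        exact pow_eq_zero_iff (two_ne_zero) |>.1 h1
      exact_mod_cast h2
    intro φ hφ
    obtain ⟨α, ⟨hα, t, ht⟩, -⟩ := hAd.2 φ hφ
    have h1 := hshd.dir α (hAd.1 α hα) t (ht ▸ hφ)
    rw [← ht] at h1
    rw [h1, hzero α hα]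
  have hzz : z = D.act g z := by
    ext φ
    by_cases hrt : φ ∈ D.Rt
    · by_cases hd : ∀ δ ∈ Δ, φ ∉ D.Fd δ
      · exact hsh.out φ hrt hd
      · push Not at hd
        obtain ⟨δ, hδ, hφ⟩ := hd
        have h1 := hsh.inn δ hδ φ hφ
        rw [key δ hδ φ hφ] at h1
        rw [h1]
        simp
    · exact ⟨fun h1 => absurd (hz.1.1.sub h1) hrt, fun h1 => absurd (hzg.1.1.sub h1) hrt⟩
  -- so `g = 1`
  obtain ⟨L, hL⟩ := (hLSX D H hH).1
  obtain ⟨b, κ, c, hDev, hc⟩ := hDEV D H hH L hL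
  have h1 := hDev.hol ⟨g, hgH⟩ ⟨z, hz.1.1⟩ ⟨z, hz.1.1⟩ hzz
  have h2 : c ⟨g, hgH⟩ = 1 := by
    have h3 : c ⟨g, hgH⟩ * κ ⟨z, hz.1.1⟩ = 1 * κ ⟨z, hz.1.1⟩ := by
      rw [one_mul]
      exact h1.symm
    exact mul_right_cancel h3
  have h3 : (⟨g, hgH⟩ : H) = 1 := hc (by rw [h2, map_one])
  have h4 : g = 1 := congrArg Subtype.val h3
  exact hH.tf h hh k hk0 h4

end Pool.CS
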