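import Pool.Agent.Work.MP_64ea0f_cs_helper93.THR

set_option autoImplicit false

/-! # Block NCT: closest chamber and nearness -/

namespace Pool.CS

namespace NCT93

open H91 THR93

variable {D : Rd}

/-- a nonnegative vector supported in `J` has nonnegative value -/
theorem f_nonneg (f : D.V →ₗ[ℝ] ℝ) (w : D.W) (J : Set D.S) (hf : ∀ s ∈ J, 0 ≤ f (D.ρ w (D.e s)))
    (v : D.V) (hv : ∀ s, 0 ≤ v s) (hJ : D.In J v) : 0 ≤ f (D.ρ w v) := by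
  have h1 : v = ∑ s, v s • D.e s := by
    ext t
    rw [Finset.sum_apply, Finset.sum_eq_single t]
    · simp [e_self]
    · intro s _ hs
      rw [Pi.smul_apply, e_ne hs.symm, smul_zero]
    · intro h
      exact absurd (Finset.mem_univ t) h
  rw [h1, map_sum, map_sum]
  refine Finset.sum_nonneg fun s _ => ?_
  rw [map_smul, map_smul, smul_eq_mul]
  by_cases hs : s ∈ J
  · exact mul_nonneg (hv s) (hf s hs)
  · rw [hJ s hs, zero_mul]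

/-- the count of roots in a strip -/
theorem strip (hTHR : Stmt_THR) {u : D.V} (hu : D.Af u) (f : D.V →ₗ[ℝ] ℝ) (hfu : f u = 1)
    {c0 : ℝ} (hc0 : 0 < c0) (hc : ∀ φ ∈ D.Fd u, c0 ≤ D.cst u φ) {n : ℕ}
    (hn : ∀ A, D.Dirs u A → A.card ≤ n) {C : ℝ} (k : ℕ) (hk : C / c0 < k) :
    {φ | φ ∈ D.Fd u ∧ -C ≤ f φ ∧ f φ ≤ 0}.Finite ∧
      {φ | φ ∈ D.Fd u ∧ -C ≤ f φ ∧ f φ ≤ 0}.ncard ≤ n * k := by
  classical
  by_cases hne : (D.Fd u).Nonempty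
  swap
  · rw [Set.not_nonempty_iff_eq_empty] at hne
    have h1 : {φ | φ ∈ D.Fd u ∧ -C ≤ f φ ∧ f φ ≤ 0} = ∅ := by
      ext φ
      simp [hne]
    rw [h1]
    simp
  obtain ⟨φ0, hφ0⟩ := hne
  obtain ⟨-, -, -, -, -, -, -, -, ⟨A, hA⟩, -⟩ := hTHR D u hu φ0 hφ0
  set S : Set D.V := {φ | φ ∈ D.Fd u ∧ -C ≤ f φ ∧ f φ ≤ 0} with hS
  have hex : ∀ φ : D.V, ∃ α : D.V, φ ∈ D.Fd u → α ∈ A ∧ ∃ t : ℝ, φ = α + t • u := by
    intro φ
    by_cases h : φ ∈ D.Fd u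
    · obtain ⟨α, h1, -⟩ := hA.2 φ h
      exact ⟨α, fun _ => h1⟩
    · exact ⟨0, fun h' => absurd h' h⟩
  choose a ha using hex
  let F : D.V → D.V × ℕ := fun φ => (a φ, ⌊(f φ + C) / c0⌋₊)
  let T : Finset (D.V × ℕ) := A ×ˢ Finset.range k
  have hmaps : ∀ φ ∈ S, F φ ∈ (T : Set (D.V × ℕ)) := by
    rintro φ ⟨h1, h2, h3⟩
    rw [Finset.mem_coe, Finset.mem_product]
    refine ⟨(ha φ h1).1, ?_⟩
    rw [Finset.mem_range]
    show ⌊(f φ + C) / c0⌋₊ < k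
    have h4 : 0 ≤ (f φ + C) / c0 := div_nonneg (by linarith) hc0.le
    rw [Nat.floor_lt h4]
    refine lt_of_le_of_lt ?_ hk
    exact div_le_div_of_nonneg_right (by linarith) hc0.le
  have hinj : Set.InjOn F S := by
    rintro φ ⟨h1, h2, h3⟩ ψ ⟨g1, g2, g3⟩ he
    have e1 : a φ = a ψ := congrArg Prod.fst he
    have e2 : ⌊(f φ + C) / c0⌋₊ = ⌊(f ψ + C) / c0⌋₊ := congrArg Prod.snd he
    obtain ⟨hα, t, ht⟩ := ha φ h1
    obtain ⟨-, s, hs⟩ := ha ψ g1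
    rw [← e1] at hs
    obtain ⟨hcp, hl, -⟩ := hTHR D u hu φ h1
    have h5 : ψ = φ + (s - t) • u := by
      rw [hs]
      nth_rewrite 2 [ht]
      module
    have h6 : φ + (s - t) • u ∈ D.Rt := h5 ▸ g1.1
    obtain ⟨i, hi⟩ := (hl _).1 h6
    have h7 : f ψ = f φ + (s - t) := by
      rw [h5, map_add, map_smul, hfu, smul_eq_mul, mul_one]
    have q1 : 0 ≤ (f φ + C) / c0 := div_nonneg (by linarith) hc0.le
    have q2 : 0 ≤ (f ψ + C) / c0 := div_nonneg (by linarith) hc0.le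
    have r1 := Nat.floor_le q1
    have r2 := Nat.lt_floor_add_one ((f φ + C) / c0)
    have r3 := Nat.floor_le q2
    have r4 := Nat.lt_floor_add_one ((f ψ + C) / c0)
    rw [e2] at r1 r2
    have s1 : (f ψ + C) / c0 - (f φ + C) / c0 < 1 := by linarith
    have s2 : (f φ + C) / c0 - (f ψ + C) / c0 < 1 := by linarith
    have s3 : (f ψ + C) / c0 - (f φ + C) / c0 = (s - t) / c0 := by
      rw [h7]; ring
    have s4 : (f φ + C) / c0 - (f ψ + C) / c0 = -(s - t) / c0 := by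
      rw [h7]; ring
    rw [s3, div_lt_one hc0] at s1
    rw [s4, div_lt_one hc0] at s2
    have hcc := hc φ h1
    have h8 : i = 0 := by
      by_contra hne
      rcases lt_or_gt_of_ne hne with h | h
      · have h9 : (i : ℝ) ≤ -1 := by exact_mod_cast (by omega : i ≤ -1)
        nlinarith
      · have h9 : (1 : ℝ) ≤ i := by exact_mod_cast (by omega : 1 ≤ i)
        nlinarith
    rw [h8] at hi
    rw [h5, hi]
    simp
  have hfin : S.Finite := Set.Finite.of_finite_image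
    (T.finite_toSet.subset (by rintro _ ⟨φ, hφ, rfl⟩; exact hmaps φ hφ)) hinj
  refine ⟨hfin, ?_⟩
  calc S.ncard = (F '' S).ncard := (Set.InjOn.ncard_image hinj).symm
    _ ≤ (T : Set (D.V × ℕ)).ncard := Set.ncard_le_ncard
        (by rintro _ ⟨φ, hφ, rfl⟩; exact hmaps φ hφ) T.finite_toSet
    _ = A.card * k := by rw [Set.ncard_coe_finset, Finset.card_product, Finset.card_range]
    _ ≤ n * k := Nat.mul_le_mul_right _ (hn A hA)

theorem main (hPAR : Stmt_PAR) (hVX1 : Stmt_VX1) (hTHR : Stmt_THR) (hLIN : Stmt_LIN)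
    (hTCU : Stmt_TCU) {u : D.V} (hu : D.Sa u) {x : Set D.V} (hx : D.Cls x) (f : D.V →ₗ[ℝ] ℝ)
    (hfu : f u = 1) {C : ℝ} (hf : ∀ φ ∈ x, φ ∈ D.Fd u → -C ≤ f φ)
    {c0 : ℝ} (hc0 : 0 < c0) (hc : ∀ φ ∈ D.Fd u, c0 ≤ D.cst u φ) {n : ℕ}
    (hn : ∀ A, D.Dirs u A → A.card ≤ n) (k : ℕ) (hk : C / c0 < k) :
    {φ | φ ∈ x ∧ φ ∉ D.Ps ∧ φ ∈ D.Fd u}.Finite ∧
      {φ | φ ∈ x ∧ φ ∉ D.Ps ∧ φ ∈ D.Fd u}.ncard ≤ n * k := by
  classical
  have hAf : D.Af u := ⟨1, u, hu, (ρ_one u).symm⟩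
  obtain ⟨v1, v2, v3, v4, v5, v6, v7, v8, v9, v10, v11⟩ := hVX1 D
  obtain ⟨hvx, hcls⟩ := hx
  obtain ⟨-, l2⟩ := hLIN D u hu
  obtain ⟨-, -, p3, -, -, p6⟩ := hPAR D (D.sp u)
  obtain ⟨w, hw, hwf⟩ := hTCU D u hu f (by rw [hfu]; exact one_pos)
  obtain ⟨s1, s2⟩ := strip hTHR hAf f hfu hc0 hc hn k hk
  set S : Set D.V := {φ | φ ∈ D.Fd u ∧ -C ≤ f φ ∧ f φ ≤ 0} with hS
  have hw' : w⁻¹ ∈ D.par (D.sp u) := Subgroup.inv_mem _ hw
  have hfin1 : (x \ D.Ps).Finite := hvx.fin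
  have hfin2 : (x \ D.act w D.Ps).Finite := (v11 x hvx _ (v2 _ v1 w)).1
  -- the roots of `x` in `Fd u` which are not in `act w Ps`
  have h1 : (x \ D.act w D.Ps) ∩ D.Fd u ⊆ S := by
    rintro φ ⟨⟨h1, h2⟩, h3⟩
    refine ⟨h3, hf φ h1 h3, ?_⟩
    rw [v6] at h2
    have h4 : -(D.ρ w⁻¹ φ) ∈ D.Ps := (not_ps_iff (rt_ρ h3.1 _)).1 h2
    have h5 : D.In (D.sp u) (-(D.ρ w⁻¹ φ)) := by
      intro s hs
      have h6 := p3 w⁻¹ hw' φ s hs
      have h7 := ((l2 φ).1 h3).2 s hs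
      rw [Pi.sub_apply, h7, sub_zero] at h6
      rw [Pi.neg_apply, h6, neg_zero]
    have h8 := f_nonneg f w (D.sp u) hwf _ h4.2 h5
    rw [map_neg, ρ_ρ_inv, map_neg] at h8
    linarith
  -- outside of `Fd u` they agree
  have hkey : ∀ φ ∈ D.Rt, φ ∉ D.Fd u → (φ ∈ D.Ps ↔ φ ∈ D.act w D.Ps) := by
    intro φ hφ hnot
    have hnin : ¬ D.In (D.sp u) φ := fun h => hnot ((l2 φ).2 ⟨hφ, h⟩)
    have hnin' : ¬ D.In (D.sp u) (-φ) := by
      intro h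
      apply hnin
      intro s hs
      have := h s hs
      rw [Pi.neg_apply] at this
      linarith
    rw [v6]
    constructor
    · intro h
      exact p6 w⁻¹ hw' φ h hnin
    · intro h
      by_contra hno
      have h4 : -φ ∈ D.Ps := (not_ps_iff hφ).1 hno
      have h5 := p6 w⁻¹ hw' (-φ) h4 hnin'
      rw [map_neg] at h5
      exact ps_not_neg h h5
  have h2 : (x \ D.Ps) \ D.Fd u = (x \ D.act w D.Ps) \ D.Fd u := by
    ext φ
    constructor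
    · rintro ⟨⟨a1, a2⟩, a3⟩
      exact ⟨⟨a1, fun h => a2 ((hkey φ (hvx.sub a1) a3).2 h)⟩, a3⟩
    · rintro ⟨⟨a1, a2⟩, a3⟩
      exact ⟨⟨a1, fun h => a2 ((hkey φ (hvx.sub a1) a3).1 h)⟩, a3⟩
  have h3 := Set.ncard_inter_add_ncard_sdiff_eq_ncard (x \ D.Ps) (D.Fd u) hfin1
  have h4 := Set.ncard_inter_add_ncard_sdiff_eq_ncard (x \ D.act w D.Ps) (D.Fd u) hfin2
  have h5 := hcls w
  rw [h2] at h3
  have h6 : ((x \ D.Ps) ∩ D.Fd u).ncard ≤ ((x \ D.act w D.Ps) ∩ D.Fd u).ncard := by omega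
  have h7 : ((x \ D.act w D.Ps) ∩ D.Fd u).ncard ≤ S.ncard := Set.ncard_le_ncard h1 s1
  have h8 : {φ | φ ∈ x ∧ φ ∉ D.Ps ∧ φ ∈ D.Fd u} = (x \ D.Ps) ∩ D.Fd u := by
    ext φ
    constructor
    · rintro ⟨a1, a2, a3⟩
      exact ⟨⟨a1, a2⟩, a3⟩
    · rintro ⟨⟨a1, a2⟩, a3⟩
      exact ⟨a1, a2, a3⟩
  rw [h8]
  exact ⟨hfin1.subset Set.inter_subset_left, by omega⟩

/-- first half -/
theorem half (hVX1 : Stmt_VX1) (hTHR : Stmt_THR) {u : D.V} (hu : D.Sa u)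
    {x : Set D.V} (hx : D.Vx x) {m : ℕ} {c1 : ℝ}
    (hc : ∀ φ ∈ D.Fd u, D.cst u φ ≤ c1)
    (hfin : {φ | φ ∈ x ∧ φ ∉ D.Ps ∧ φ ∈ D.Fd u}.Finite)
    (hm : {φ | φ ∈ x ∧ φ ∉ D.Ps ∧ φ ∈ D.Fd u}.ncard ≤ m)
    {μ : D.V} (hμF : μ ∈ D.Fd u) (hμx : -μ ∈ x) : D.ht μ ≤ m * c1 := by
  classical
  have hAf : D.Af u := ⟨1, u, hu, (ρ_one u).symm⟩
  obtain ⟨v1, v2, v3, v4, v5, v6, v7, v8, v9, v10, v11⟩ := hVX1 D
  obtain ⟨t1, t2, t3, t4, t5, t6, t7, t8, t9, t10⟩ := hTHR D u hAf μ hμF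
  obtain ⟨n1, n2, n3, n4, n5, n6, n7, n8, n9, n10⟩ := hTHR D u hAf (-μ) t4
  set c := D.cst u μ with hcdef
  set g : ℕ → D.V := fun j => -μ + ((j : ℝ) * c) • u with hg
  have hgrt : ∀ j, g j ∈ D.Rt := by
    intro j
    refine (n2 _).2 ⟨j, ?_⟩
    rw [t5]
    push_cast
    rfl
  have hgF : ∀ j, g j ∈ D.Fd u := fun j => (n3 _ (hgrt j)).2
  have hgx : ∀ j, g j ∈ x := by
    intro j
    refine v10 x hx _ hμx _ (hgrt j) (n6 _ ?_ (hgrt j))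
    positivity
  have hinj : Function.Injective g := by
    intro i j hij
    have h1 := congrArg D.ht hij
    simp only [hg] at h1
    rw [ht_add, ht_add, ht_smul, ht_smul, hu.2.2.1] at h1
    have h2 : (i : ℝ) * c = j * c := by linarith
    have h3 := mul_right_cancel₀ t1.ne' h2
    exact_mod_cast h3
  have hex : ∃ j ≤ m, g j ∈ D.Ps := by
    by_contra hno
    push Not at hno
    have h1 : (Finset.image g (Finset.range (m + 1)) : Set D.V) ⊆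
        {φ | φ ∈ x ∧ φ ∉ D.Ps ∧ φ ∈ D.Fd u} := by
      intro φ hφ
      rw [Finset.mem_coe, Finset.mem_image] at hφ
      obtain ⟨j, hj, rfl⟩ := hφ
      rw [Finset.mem_range] at hj
      exact ⟨hgx j, hno j (by omega), hgF j⟩
    have h2 := Set.ncard_le_ncard h1 hfin
    rw [Set.ncard_coe_finset, Finset.card_image_of_injective _ hinj, Finset.card_range] at h2
    omega
  obtain ⟨j, hj, hps⟩ := hex
  have h1 : 0 < D.ht (g j) := ht_pos hps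
  have h2 : D.ht (g j) = -D.ht μ + (j : ℝ) * c := by
    simp only [hg]
    rw [ht_add, ht_neg, ht_smul, hu.2.2.1, mul_one]
  have h3 := hc μ hμF
  have h4 : (j : ℝ) ≤ m := by exact_mod_cast hj
  have h5 : (j : ℝ) * c ≤ m * c1 := mul_le_mul h4 h3 t1.le (Nat.cast_nonneg m)
  linarith

end NCT93

open NCT93 H91 THR93 in
theorem nct_thm : Stmt_BAS → Stmt_SGN → Stmt_PAR → Stmt_VX1 → Stmt_THR → Stmt_ORT → Stmt_SAV →
    Stmt_DRS → Stmt_LIN → Stmt_TCU → Stmt_NCT := by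
  intro _ _ hPAR hVX1 hTHR hORT _ _ hLIN hTCU D C
  obtain ⟨-, -, ⟨c0, c1, hc0, hcc⟩, ⟨n, hn⟩⟩ := hORT D
  obtain ⟨k, hk⟩ := exists_nat_gt (C / c0)
  refine ⟨(n * k : ℕ) * |c1| + |c1|, ?_⟩
  intro u hu x hx hnear
  obtain ⟨f, hfu, -, hf⟩ := hnear
  have hAf : D.Af u := ⟨1, u, hu, (ρ_one u).symm⟩
  obtain ⟨m1, m2⟩ := main hPAR hVX1 hTHR hLIN hTCU hu hx f hfu hf hc0
    (fun φ hφ => (hcc u hAf φ hφ).1) (fun A hA => hn u hAf A hA) k hk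
  have hc1 : ∀ φ ∈ D.Fd u, D.cst u φ ≤ |c1| := fun φ hφ =>
    ((hcc u hAf φ hφ).2).trans (le_abs_self c1)
  have hhalf : ∀ μ ∈ D.Fd u, -μ ∈ x → D.ht μ ≤ (n * k : ℕ) * |c1| := fun μ hμ hμx =>
    half hVX1 hTHR hu hx.1 hc1 m1 m2 hμ hμx
  have habs : 0 ≤ |c1| := abs_nonneg c1
  refine ⟨fun μ _ hμ hμx => (hhalf μ hμ hμx).trans (by linarith), ?_⟩
  intro μ hμ hmn
  obtain ⟨t1, t2, t3, t4, t5, t6, t7, t8, t9, t10⟩ := hTHR D u hAf μ hμ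
  by_cases hps : μ ∈ D.Ps
  · have hpos := ht_pos hps
    rw [abs_of_pos hpos]
    have hr : μ + (-D.cst u μ) • u ∈ D.Rt := (t2 _).2 ⟨-1, by push_cast; ring⟩
    obtain ⟨q1, q2⟩ := t3 _ hr
    obtain ⟨r1, r2, r3, r4, r5, r6, r7, r8, r9, r10⟩ := hTHR D u hAf _ q2
    have e : μ + (-D.cst u μ) • u + D.cst u μ • u = μ := by module
    have hnx : μ + (-D.cst u μ) • u ∉ x := by
      intro hin
      have h1 := r6 (D.cst u μ) t1.le (by rw [e]; exact hμ.1)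
      rw [e] at h1
      have h2 := hmn.2 _ hin h1
      have h3 : (D.cst u μ) • u = 0 := by
        have h4 : μ + (-D.cst u μ) • u - μ = 0 := by rw [h2]; abel
        have h5 : (D.cst u μ) • u = -(μ + (-D.cst u μ) • u - μ) := by module
        rw [h5, h4, neg_zero]
      rcases smul_eq_zero.1 h3 with h4 | h4
      · linarith
      · have h5 := hu.2.2.1
        rw [h4] at h5
        simp [Rd.ht] at h5
    have hnx' : -(μ + (-D.cst u μ) • u) ∈ x := (hx.1.tot _ hr).resolve_left hnx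
    have h1 := hhalf _ q2 hnx'
    have h2 : D.ht (μ + (-D.cst u μ) • u) = D.ht μ - D.cst u μ := by
      rw [ht_add, ht_smul, hu.2.2.1]; ring
    have h3 := hc1 μ hμ
    rw [h2] at h1
    linarith
  · have h1 : -μ ∈ D.Ps := (not_ps_iff hμ.1).1 hps
    have h2 := hhalf (-μ) t4 (by rw [neg_neg]; exact hmn.1)
    have h3 := ht_pos h1
    rw [← abs_neg, ← ht_neg, abs_of_pos h3]
    linarith

end Pool.CS
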