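import Pool.Agent.Work.MP_64ea0f_cs.InterfaceG1
import Pool.Agent.Work.MP_64ea0f_cs_helper91.FAC

set_option autoImplicit false

/-! # Block THR: structure of `Fd δ` -/

namespace Pool.CS

namespace THR93

open H91

variable {D : Rd}

theorem af_act {δ : D.V} (h : D.Af δ) (n : D.W) : D.Af (D.ρ n δ) := by
  obtain ⟨g, u, hu, rfl⟩ := h
  exact ⟨n * g, u, hu, (ρ_mul n g u).symm⟩

theorem rt_act_iff (g : D.W) (φ δ : D.V) (t : ℝ) :
    D.ρ g φ + t • D.ρ g δ ∈ D.Rt ↔ φ + t • δ ∈ D.Rt := by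
  have h1 : D.ρ g φ + t • D.ρ g δ = D.ρ g (φ + t • δ) := by rw [map_add, map_smul]
  rw [h1, rt_ρ_iff]

theorem fd_act {δ φ : D.V} (h : φ ∈ D.Fd δ) (g : D.W) : D.ρ g φ ∈ D.Fd (D.ρ g δ) := by
  obtain ⟨h1, t, ht, h2⟩ := h
  exact ⟨rt_ρ h1 g, t, ht, (rt_act_iff g φ δ t).2 h2⟩

theorem cst_act (δ φ : D.V) (g : D.W) : D.cst (D.ρ g δ) (D.ρ g φ) = D.cst δ φ := by
  unfold Rd.cst
  congr 1
  ext t
  simp only [Set.mem_ofPred_eq, rt_act_iff]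

theorem cst_eq {δ φ : D.V} {c : ℝ} (hc : 0 < c)
    (h : ∀ t : ℝ, φ + t • δ ∈ D.Rt ↔ ∃ i : ℤ, t = i * c) : D.cst δ φ = c := by
  unfold Rd.cst
  refine IsLeast.csInf_eq ⟨⟨hc, (h c).2 ⟨1, by simp⟩⟩, ?_⟩
  rintro t ⟨ht, ht'⟩
  obtain ⟨i, rfl⟩ := (h t).1 ht'
  have h1 : (0 : ℝ) < i := by
    by_contra hn
    push Not at hn
    have := mul_nonpos_of_nonpos_of_nonneg hn hc.le
    linarith
  have h2 : (1 : ℤ) ≤ i := by
    have : (0 : ℤ) < i := by exact_mod_cast h1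
    omega
  have h3 : (1 : ℝ) ≤ i := by exact_mod_cast h2
  nlinarith

theorem line (hLIN : Stmt_LIN) {δ φ : D.V} (hδ : D.Af δ) (hφ : φ ∈ D.Fd δ) :
    0 < D.cst δ φ ∧ ∀ t : ℝ, φ + t • δ ∈ D.Rt ↔ ∃ i : ℤ, t = i * D.cst δ φ := by
  obtain ⟨g, u, hu, rfl⟩ := hδ
  obtain ⟨l1, l2⟩ := hLIN D u hu
  have h1 := fd_act hφ g⁻¹
  rw [ρ_inv_ρ] at h1
  obtain ⟨h2, h3⟩ := (l2 _).1 h1
  obtain ⟨c, hc, h4⟩ := l1 _ h2 h3
  have h5 : ∀ t : ℝ, φ + t • D.ρ g u ∈ D.Rt ↔ ∃ i : ℤ, t = i * c := by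
    intro t
    have h6 := rt_act_iff g (D.ρ g⁻¹ φ) u t
    rw [ρ_ρ_inv] at h6
    rw [h6, h4]
  rw [cst_eq hc h5]
  exact ⟨hc, h5⟩

/-- the roots on the line of `φ` -/
theorem line_shift (hLIN : Stmt_LIN) {δ φ : D.V} (hδ : D.Af δ) (hφ : φ ∈ D.Fd δ) {t : ℝ}
    (ht : φ + t • δ ∈ D.Rt) : D.cst δ (φ + t • δ) = D.cst δ φ ∧ φ + t • δ ∈ D.Fd δ := by
  obtain ⟨hc, hl⟩ := line hLIN hδ hφ
  obtain ⟨i, hi⟩ := (hl t).1 ht
  have h1 : ∀ s : ℝ, φ + t • δ + s • δ ∈ D.Rt ↔ ∃ j : ℤ, s = j * D.cst δ φ := by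
    intro s
    have e : φ + t • δ + s • δ = φ + (t + s) • δ := by module
    rw [e, hl]
    constructor
    · rintro ⟨j, hj⟩
      refine ⟨j - i, ?_⟩
      push_cast
      linarith
    · rintro ⟨j, hj⟩
      refine ⟨i + j, ?_⟩
      push_cast
      linarith
  refine ⟨cst_eq hc h1, ht, D.cst δ φ, hc.ne', (h1 _).2 ⟨1, by simp⟩⟩

theorem fd_neg (hLIN : Stmt_LIN) {δ φ : D.V} (hδ : D.Af δ) (hφ : φ ∈ D.Fd δ) :
    -φ ∈ D.Fd δ ∧ D.cst δ (-φ) = D.cst δ φ := by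
  obtain ⟨hc, hl⟩ := line hLIN hδ hφ
  have h1 : ∀ t : ℝ, -φ + t • δ ∈ D.Rt ↔ ∃ j : ℤ, t = j * D.cst δ φ := by
    intro t
    have e : -φ + t • δ = -(φ + (-t) • δ) := by module
    have e2 : -(φ + (-t) • δ) ∈ D.Rt ↔ φ + (-t) • δ ∈ D.Rt :=
      ⟨fun h => by simpa using rt_neg h, fun h => rt_neg h⟩
    rw [e, e2, hl]
    constructor
    · rintro ⟨j, hj⟩
      refine ⟨-j, ?_⟩
      push_cast
      linarith
    · rintro ⟨j, hj⟩
      refine ⟨-j, ?_⟩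
      push_cast
      linarith
  refine ⟨⟨rt_neg hφ.1, D.cst δ φ, hc.ne', (h1 _).2 ⟨1, by simp⟩⟩, cst_eq hc h1⟩

/-- affine vectors are nonnegative and have a positive coordinate -/
theorem af_pos (hIMC : Stmt_IMC) {δ : D.V} (hδ : D.Af δ) :
    (∀ s, 0 ≤ δ s) ∧ ∃ s, 0 < δ s := by
  obtain ⟨g, u, hu, rfl⟩ := hδ
  obtain ⟨-, h2, -⟩ := hIMC D
  have h3 : ∀ s, 0 ≤ u s := hu.1.1
  refine ⟨fun s => (h3 s).trans (h2 u hu.1 g s), ?_⟩
  have h4 : ∃ s, 0 < u s := by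
    by_contra hno
    push Not at hno
    have h5 : D.ht u ≤ 0 := Finset.sum_nonpos fun s _ => hno s
    rw [hu.2.2.1] at h5
    linarith
  obtain ⟨s, hs⟩ := h4
  exact ⟨s, hs.trans_le (h2 u hu.1 g s)⟩

theorem sub_add (hIMC : Stmt_IMC) {δ φ : D.V} (hδ : D.Af δ) {t : ℝ} (ht : 0 ≤ t)
    (hr : φ + t • δ ∈ D.Rt) : D.Sub φ (φ + t • δ) := by
  intro w hw
  refine ⟨rt_ρ hr _, fun s => ?_⟩
  have h1 := hw.2 s
  have h2 := (af_pos hIMC (af_act hδ w⁻¹)).1 s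
  rw [map_add, map_smul]
  simp only [Pi.add_apply, Pi.smul_apply, smul_eq_mul]
  have := mul_nonneg ht h2
  linarith

theorem ps_of_pos {φ : D.V} (h : φ ∈ D.Rt) {s : D.S} (hs : 0 < φ s) : φ ∈ D.Ps := by
  rcases rt_sign h with h1 | h1
  · exact ⟨h, h1⟩
  · have := h1 s
    linarith

theorem ne_zero (hIMC : Stmt_IMC) {δ : D.V} (hδ : D.Af δ) : δ ≠ 0 := by
  obtain ⟨s, hs⟩ := (af_pos hIMC hδ).2
  rintro rfl
  simp at hs

/-- thresholds -/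
theorem thresh (hIMC : Stmt_IMC) (hLIN : Stmt_LIN) (hVX1 : Stmt_VX1) {δ φ : D.V} (hδ : D.Af δ)
    (hφ : φ ∈ D.Fd δ) (x : Set D.V) (hx : D.Vx x) :
    ∃ j : ℤ, ∀ i : ℤ, φ + ((i : ℝ) * D.cst δ φ) • δ ∈ x ↔ j ≤ i := by
  classical
  obtain ⟨hc, hl⟩ := line hLIN hδ hφ
  obtain ⟨v1, v2, v3, v4, v5, v6, v7, v8, v9, v10, v11⟩ := hVX1 D
  set f : ℤ → D.V := fun i => φ + ((i : ℝ) * D.cst δ φ) • δ with hf
  have hfr : ∀ i, f i ∈ D.Rt := fun i => (hl _).2 ⟨i, rfl⟩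
  have hup : ∀ i i' : ℤ, i ≤ i' → f i ∈ x → f i' ∈ x := by
    intro i i' hii hi
    have e : f i' = f i + (((i' - i : ℤ) : ℝ) * D.cst δ φ) • δ := by
      simp only [hf]
      push_cast
      module
    refine v10 x hx _ hi _ (hfr i') ?_
    have h1 : (0 : ℝ) ≤ ((i' - i : ℤ) : ℝ) * D.cst δ φ := by
      have : (0 : ℤ) ≤ i' - i := by omega
      have : (0 : ℝ) ≤ ((i' - i : ℤ) : ℝ) := by exact_mod_cast this
      positivity
    have h2 := hfr i'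
    rw [e] at h2 ⊢
    exact sub_add hIMC hδ h1 h2
  have hinj : Function.Injective f := by
    intro i i' hii
    obtain ⟨s, hs⟩ := (af_pos hIMC hδ).2
    have h1 := congrFun hii s
    simp only [hf, Pi.add_apply, Pi.smul_apply, smul_eq_mul] at h1
    have h2 : (i : ℝ) * (D.cst δ φ * δ s) = i' * (D.cst δ φ * δ s) := by linarith
    have h3 := mul_right_cancel₀ (mul_pos hc hs).ne' h2
    exact_mod_cast h3
  obtain ⟨s, hs⟩ := (af_pos hIMC hδ).2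
  have hcs := mul_pos hc hs
  have hcoord : ∀ i : ℤ, f i s = φ s + i * (D.cst δ φ * δ s) := by
    intro i
    simp only [hf, Pi.add_apply, Pi.smul_apply, smul_eq_mul]
    ring
  -- nonempty
  have hne : ∃ i, f i ∈ x := by
    by_contra hno
    push Not at hno
    obtain ⟨m, hm⟩ := exists_nat_gt (-φ s / (D.cst δ φ * δ s))
    rw [div_lt_iff₀ hcs] at hm
    have h1 : ∀ n : ℕ, f ((m : ℤ) + n) ∈ D.Ps \ x := by
      intro n
      refine ⟨ps_of_pos (hfr _) (s := s) ?_, hno _⟩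
      rw [hcoord]
      push_cast
      have : (0 : ℝ) ≤ (n : ℝ) * (D.cst δ φ * δ s) := by positivity
      nlinarith
    have h2 : (D.Ps \ x).Infinite :=
      Set.infinite_of_injective_forall_mem (f := fun n : ℕ => f ((m : ℤ) + n))
        (fun a b hab => by
          have := hinj hab
          omega) h1
    exact h2 (v11 D.Ps v1 x hx).1
  -- bounded below
  have hbd : ∃ b : ℤ, ∀ i, f i ∈ x → b ≤ i := by
    by_contra hno
    push Not at hno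
    have hall : ∀ i, f i ∈ x := by
      intro i
      obtain ⟨i', hi', hlt⟩ := hno i
      exact hup i' i hlt.le hi'
    obtain ⟨m, hm⟩ := exists_nat_gt (φ s / (D.cst δ φ * δ s))
    rw [div_lt_iff₀ hcs] at hm
    have h1 : ∀ n : ℕ, f (-((m : ℤ) + n)) ∈ x \ D.Ps := by
      intro n
      refine ⟨hall _, fun hps => ?_⟩
      have h2 := hps.2 s
      rw [hcoord] at h2
      push_cast at h2
      have : (0 : ℝ) ≤ (n : ℝ) * (D.cst δ φ * δ s) := by positivity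
      nlinarith
    have h2 : (x \ D.Ps).Infinite :=
      Set.infinite_of_injective_forall_mem (f := fun n : ℕ => f (-((m : ℤ) + n)))
        (fun a b hab => by
          have := hinj hab
          omega) h1
    exact h2 hx.fin
  obtain ⟨j, hj1, hj2⟩ := Int.exists_least_of_bdd hbd hne
  exact ⟨j, fun i => ⟨fun h => hj2 i h, fun h => hup j i h hj1⟩⟩

theorem prod (hPSD : Stmt_PSD) (hLIN : Stmt_LIN) {δ φ ψ : D.V} (hδ : D.Af δ) (hφ : φ ∈ D.Fd δ)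
    (hψ : ψ ∈ D.Fd δ) : |D.B φ ψ| < 1 ∨ ∃ t : ℝ, ψ = φ + t • δ ∨ ψ = -φ + t • δ := by
  obtain ⟨g, u, hu, rfl⟩ := hδ
  obtain ⟨-, l2⟩ := hLIN D u hu
  have hu0 : u ≠ 0 := by
    rintro rfl
    have h1 : D.ht (0 : D.V) = 0 := by simp [Rd.ht]
    rw [hu.2.2.1] at h1
    norm_num at h1
  obtain ⟨-, -, -, p4⟩ := hPSD D u hu.1 hu.2.1 hu.2.2.2 hu0
  have h1 := fd_act hφ g⁻¹
  have h2 := fd_act hψ g⁻¹
  rw [ρ_inv_ρ] at h1 h2
  obtain ⟨a1, a2⟩ := (l2 _).1 h1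
  obtain ⟨b1, b2⟩ := (l2 _).1 h2
  obtain ⟨q1, q2, q3⟩ := p4 _ a1 _ b1 a2 b2
  rw [B_ρ] at q1 q2 q3
  rcases q1.lt_or_eq with h | h
  · exact Or.inl h
  · right
    rcases (abs_eq zero_le_one).1 h with h | h
    · obtain ⟨t, ht⟩ := q2 h
      refine ⟨t, Or.inl ?_⟩
      have := congrArg (D.ρ g) ht
      rw [map_add, map_smul, ρ_ρ_inv, ρ_ρ_inv] at this
      exact this
    · obtain ⟨t, ht⟩ := q3 h
      refine ⟨t, Or.inr ?_⟩
      have := congrArg (D.ρ g) ht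
      rw [map_add, map_smul, map_neg, ρ_ρ_inv, ρ_ρ_inv] at this
      exact this

theorem dirs (hDRS : Stmt_DRS) (hLIN : Stmt_LIN) {δ : D.V} (hδ : D.Af δ) :
    ∃ A, D.Dirs δ A := by
  classical
  obtain ⟨g, u, hu, rfl⟩ := hδ
  obtain ⟨⟨U, hU, hU1, hU2⟩, -⟩ := hDRS D u hu
  obtain ⟨-, l2⟩ := hLIN D u hu
  let U' : Finset D.V := (hU.image (D.ρ g)).toFinset
  have hU' : ∀ v, v ∈ U' ↔ ∃ w ∈ U, D.ρ g w = v := by
    intro v
    simp only [U', Set.Finite.mem_toFinset, Set.mem_image]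
  let cls : D.V → Set D.V := fun v => {w | ∃ t : ℝ, w = v + t • D.ρ g u}
  have hcls : ∀ v w, (∃ t : ℝ, w = v + t • D.ρ g u) → cls v = cls w := by
    rintro v w ⟨t, rfl⟩
    ext z
    constructor
    · rintro ⟨r, rfl⟩
      exact ⟨r - t, by module⟩
    · rintro ⟨r, rfl⟩
      exact ⟨t + r, by module⟩
  have hself : ∀ v, v ∈ cls v := fun v => ⟨0, by simp⟩
  let pick : Set D.V → D.V := fun q => if h : ∃ α ∈ U', cls α = q then h.choose else 0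
  have hpick : ∀ v ∈ U', pick (cls v) ∈ U' ∧ cls (pick (cls v)) = cls v := by
    intro v hv
    have h : ∃ α ∈ U', cls α = cls v := ⟨v, hv, rfl⟩
    simp only [pick, dif_pos h]
    exact h.choose_spec
  refine ⟨U'.image fun v => pick (cls v), ?_, ?_⟩
  · intro α hα
    rw [Finset.mem_image] at hα
    obtain ⟨v, hv, rfl⟩ := hα
    obtain ⟨w, hw, he⟩ := (hU' _).1 (hpick v hv).1
    rw [← he]
    exact fd_act ((l2 w).2 (hU1 w hw)) g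
  · intro φ hφ
    have h1 := fd_act hφ g⁻¹
    rw [ρ_inv_ρ] at h1
    obtain ⟨a1, a2⟩ := (l2 _).1 h1
    obtain ⟨ψ, hψ, t, ht⟩ := hU2 _ a1 a2
    have h2 : φ = D.ρ g ψ + t • D.ρ g u := by
      have := congrArg (D.ρ g) ht
      rw [map_add, map_smul, ρ_ρ_inv] at this
      exact this
    have h3 : D.ρ g ψ ∈ U' := (hU' _).2 ⟨ψ, hψ, rfl⟩
    have h4 : cls (D.ρ g ψ) = cls φ := hcls _ _ ⟨t, h2⟩
    obtain ⟨h5, h6⟩ := hpick _ h3
    refine ⟨pick (cls (D.ρ g ψ)), ⟨Finset.mem_image.2 ⟨_, h3, rfl⟩, ?_⟩, ?_⟩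
    · have h7 : φ ∈ cls (pick (cls (D.ρ g ψ))) := by
        rw [h6, h4]
        exact hself φ
      exact h7
    · rintro β ⟨hβ, t', ht'⟩
      rw [Finset.mem_image] at hβ
      obtain ⟨v, hv, rfl⟩ := hβ
      have h7 := (hpick v hv).2
      have h8 : cls (pick (cls v)) = cls φ := hcls _ _ ⟨t', ht'⟩
      rw [← h7, h8, ← h4]

end THR93

open THR93 in
theorem thr_thm : Stmt_BAS → Stmt_SGN → Stmt_NST → Stmt_IMC → Stmt_VX1 → Stmt_PSD → Stmt_SAV →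
    Stmt_DRS → Stmt_LIN → Stmt_THR := by
  intro _ _ _ hIMC hVX1 hPSD _ hDRS hLIN D δ hδ φ hφ
  obtain ⟨hc, hl⟩ := line hLIN hδ hφ
  obtain ⟨hn1, hn2⟩ := fd_neg hLIN hδ hφ
  exact ⟨hc, hl, fun t ht => line_shift hLIN hδ hφ ht, hn1, hn2,
    fun t ht hr => sub_add hIMC hδ ht hr, fun x hx => thresh hIMC hLIN hVX1 hδ hφ x hx,
    fun ψ hψ => prod hPSD hLIN hδ hφ hψ, dirs hDRS hLIN hδ,
    fun g => ⟨af_act hδ g, fd_act hφ g, cst_act δ φ g⟩⟩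

end Pool.CS
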