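import Pool.Agent.Work.MP_64ea0f_cs.InterfaceG3

set_option autoImplicit false

/-! # Block FLD: the folding theorem -/

namespace Pool.CS

namespace FLD

variable {D : Rd}

theorem lab_trans (H : Subgroup D.W) {φ ψ χ : D.V} (h1 : φ ∈ D.lab H ψ) (h2 : ψ ∈ D.lab H χ) :
    φ ∈ D.lab H χ := by
  obtain ⟨g, hg, h1⟩ := h1
  obtain ⟨g', hg', h2⟩ := h2
  refine ⟨g * g', H.mul_mem hg hg', ?_⟩
  have e : D.ρ (g * g') χ = D.ρ g (D.ρ g' χ) := by rw [map_mul, Module.End.mul_apply]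
  rw [e]
  rcases h1 with h1 | h1 <;> rcases h2 with h2 | h2 <;> subst h2
  · exact Or.inl h1
  · rw [map_neg] at h1
    exact Or.inr h1
  · exact Or.inr h1
  · rw [map_neg, neg_neg] at h1
    exact Or.inl h1

theorem lab_symm (H : Subgroup D.W) {φ ψ : D.V} (h1 : φ ∈ D.lab H ψ) : ψ ∈ D.lab H φ := by
  obtain ⟨g, hg, h1⟩ := h1
  refine ⟨g⁻¹, H.inv_mem hg, ?_⟩
  have e : ∀ v, D.ρ g⁻¹ (D.ρ g v) = v := by
    intro v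
    rw [← Module.End.mul_apply, ← map_mul, inv_mul_cancel, map_one, Module.End.one_apply]
  rcases h1 with h1 | h1
  · left
    rw [h1, e]
  · right
    rw [h1, map_neg, e, neg_neg]

theorem mem_lb {H : Subgroup D.W} (a : D.Lb H) {φ ψ : D.V} (h1 : φ ∈ a.1) (h2 : ψ ∈ D.lab H φ) :
    ψ ∈ a.1 := by
  obtain ⟨φ0, -, h0⟩ := a.2
  rw [h0] at h1 ⊢
  exact lab_trans H h2 h1

theorem lb_rel {H : Subgroup D.W} (a : D.Lb H) {φ ψ : D.V} (h1 : φ ∈ a.1) (h2 : ψ ∈ a.1) :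
    ψ ∈ D.lab H φ := by
  obtain ⟨φ0, -, h0⟩ := a.2
  rw [h0] at h1 h2
  exact lab_trans H h2 (lab_symm H h1)

theorem moved {H : Subgroup D.W} {K : Set D.S} {L : LS (D.lg H) (D.YT K)} (hL : D.IsFlipJ H K L)
    {a : D.Lb H} {x : D.YT K} (h : L.τ a x ≠ x) :
    ∃ φ, D.Mn x.1 φ ∧ φ ∈ a.1 ∧ D.YJ K (D.fl x.1 φ) ∧ (L.τ a x).1 = D.fl x.1 φ := by
  by_contra hno
  push Not at hno
  refine h ((hL a x).2 fun φ h1 h2 h3 => ?_)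
  exact hno φ h1 h2 h3 ((hL a x).1 φ h1 h2 h3)

end FLD

open FLD in
theorem fld_thm : Stmt_OKC → Stmt_EQV → Stmt_PRL → Stmt_MVE → Stmt_NMV → Stmt_FRE → Stmt_KMC →
    Stmt_FOR → Stmt_QLS → Stmt_YJ4 → Stmt_RD2 → Stmt_FLD := by
  intro hOKC hEQV hPRL hMVE hNMV hFRE hKMC hFOR hQLS _ hRD2 D H hH L hL b κ c hDev hc K hK LJ hLJ
  obtain ⟨C, N1, hOk⟩ := hOKC D K hK
  obtain ⟨N0, hN0, hper⟩ := hPRL D H hH.nor hH.fin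
  -- periodicity for the multiples of `N0`
  have hper' : ∀ N : ℕ, N0 ∣ N → ∀ δ, D.Af δ → ∀ φ ∈ D.Fd δ, ∀ i : ℤ,
      φ + ((N * i : ℝ) * D.cst δ φ) • δ ∈ D.lab H φ := by
    rintro N ⟨k, rfl⟩ δ hδ φ hφ i
    have h1 := hper δ hδ φ hφ ((k : ℤ) * i)
    have h2 : ((N0 : ℝ) * (((k : ℤ) * i : ℤ) : ℝ)) = (((N0 * k : ℕ) : ℝ) * (i : ℝ)) := by
      push_cast
      ring
    rw [h2] at h1
    exact h1
  let ι : Type := {N : ℕ // N1 ≤ N ∧ N0 ∣ N ∧ 0 < N}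
  let r : ι → D.YT K → D.YT K → Prop := fun i x y => D.Eqv K C i.1 x.1 y.1
  have hE := fun i : ι => hEQV D K hK C i.1 (hOk i.1 i.2.1)
  have hR := fun i : ι => hRD2 D K hK C i.1 (hOk i.1 i.2.1)
  have hM := fun i : ι => hMVE D K hK C i.1 (hOk i.1 i.2.1) H (hper' i.1 i.2.2.1)
  have hNM := fun i : ι => hNMV D K hK C i.1 (hOk i.1 i.2.1) H (hper' i.1 i.2.2.1)
  have hmr : ∀ (i : ι) x y, D.MR K i.1 x y → D.YJ K x ∧ D.YJ K y := by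
    rintro i x y ⟨Δ, ν, h⟩
    exact ⟨h.vx, h.vy⟩
  have hq : ∀ i : ι, ∃ (Q : Type) (q : D.YT K → Q) (LQ : LS (D.lg H) Q), Function.Surjective q ∧
      (∀ x y, q x = q y ↔ r i x y) ∧
      (∀ a x, LJ.τ a x ≠ x → LQ.τ a (q x) = q (LJ.τ a x) ∧ LQ.τ a (q x) ≠ q x) ∧
      (∀ v, ∃ x, q x = v ∧ ∀ a, LQ.τ a v ≠ v → LJ.τ a x ≠ x) := by
    intro i
    obtain ⟨e1, e2, e3, e4, e5, e6⟩ := hE i
    refine hQLS (D.Lb H) (D.lg H) (D.YT K) LJ (r i) ⟨fun x => e1 x.1 x.2, fun h => e2 _ _ h,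
      fun h h' => e3 _ _ _ h h'⟩ ?_ ?_ ?_
    · intro a y y' hyy hy hy'
      obtain ⟨φ, m1, l1, j1, t1⟩ := moved hLJ hy
      obtain ⟨ψ, m2, l2, j2, t2⟩ := moved hLJ hy'
      obtain ⟨z, hz, hzy, hzy'⟩ := hyy
      obtain ⟨φ', n1, k1, i1, s1⟩ := hM i z y.1 hz hzy φ m1 j1
      obtain ⟨ψ', n2, k2, i2, s2⟩ := hM i z y'.1 hz hzy' ψ m2 j2
      have h1 : ψ' = φ' := hH.self z hz.1.1 φ' ψ' n1 n2
        (lb_rel a (mem_lb a l1 i1) (mem_lb a l2 i2))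
      rw [h1] at s2
      have h2 : D.Eqv K C i.1 (D.fl y.1 φ) (D.fl y'.1 ψ) :=
        e3 _ _ _ (e2 _ _ (e4 _ _ s1)) (e4 _ _ s2)
      change D.Eqv K C i.1 (LJ.τ a y).1 (LJ.τ a y').1
      rw [t1, t2]
      exact h2
    · intro a y hy
      obtain ⟨φ, m1, l1, j1, t1⟩ := moved hLJ hy
      change ¬ D.Eqv K C i.1 y.1 (LJ.τ a y).1
      rw [t1]
      exact hNM i y.1 φ y.2 m1 j1
    · intro y
      obtain ⟨z, hz, hzy, -⟩ := e1 y.1 y.2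
      refine ⟨⟨z, hz.1⟩, e2 _ _ (e4 _ _ hzy), ?_⟩
      intro a y' hyy hy'
      obtain ⟨φ, m1, l1, j1, t1⟩ := moved hLJ hy'
      obtain ⟨z', hz', hzy', hzy''⟩ := hyy
      obtain ⟨Δ, ν, h1, -⟩ := (hR i).2.1 z z' hz hz' y.1 hzy hzy'
      have h2 := (hR i).2.2.1 z z' y'.1 hz hz' ⟨Δ, ν, h1⟩ hzy''
      obtain ⟨φ', n1, k1, i1, s1⟩ := hM i z y'.1 hz h2 φ m1 j1
      have h3 := (hLJ a ⟨z, hz.1⟩).1 φ' n1 (mem_lb a l1 i1) k1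
      intro h4
      have h5 := hNM i z φ' hz.1 n1 k1
      apply h5
      rw [← show (LJ.τ a ⟨z, hz.1⟩).1 = D.fl z φ' from h3, h4]
      exact e1 z hz.1
  choose Q q LQ hsurj hqr hτ hcore using hq
  refine ⟨ι, Q, q, LQ, ?_, hsurj, ?_, hτ, hcore, ?_, ?_, ?_⟩
  · refine ⟨⟨N0 * (N1 + 1), ?_, Dvd.intro _ rfl, by positivity⟩⟩
    nlinarith
  · intro i n hn x y x' y' hx' hy' hxy
    rw [hqr] at hxy ⊢
    change D.Eqv K C i.1 x'.1 y'.1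
    rw [hx', hy']
    exact (hE i).2.2.2.2.1 _ _ hxy n hn
  · intro i h hh hhK x x' hx' hxx
    rw [hqr] at hxx
    refine hFRE D K hK C i.1 (hOk i.1 i.2.1) H hH x.1 x.2 h hh hhK ?_
    rw [← hx']
    exact (hE i).2.1 _ _ hxx
  · intro i M hMn hMf
    obtain ⟨P, hPf, hPY, hP⟩ := hFOR D K hK i.1 i.2.2.2 M hMn hMf
    refine ⟨q i '' {y : D.YT K | y.1 ∈ P}, ?_, ?_⟩
    · refine Set.Finite.image _ ?_
      exact hPf.preimage (Set.injOn_of_injective Subtype.val_injective)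
    · intro x
      obtain ⟨m, hm, hmK, y, hy, hmy⟩ := hP x.1 x.2
      refine ⟨m, hm, hmK, ⟨D.act m x.1, (hmr i _ _ hmy).1⟩, rfl, ⟨⟨y, hPY y hy⟩, hy, ?_⟩⟩
      exact (hqr i _ _).2 ((hE i).2.1 _ _ ((hE i).2.2.2.1 _ _ hmy))
  · intro i MC hMCn hMCf
    obtain ⟨N2, hN2, hk⟩ := hKMC D H hH L hL b κ c hDev MC hMCn hMCf
    have hpos : 0 < i.1 * N2 := Nat.mul_pos i.2.2.2 hN2
    refine ⟨⟨i.1 * N2, ?_, Dvd.dvd.mul_right i.2.2.1 _, hpos⟩, ?_, ?_⟩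
    · exact i.2.1.trans (Nat.le_mul_of_pos_right _ hN2)
    · intro x y hxy
      rw [hqr] at hxy ⊢
      exact (hE i).2.2.2.2.2 _ _ _ (Dvd.intro _ rfl) hpos hxy
    · intro x y hxy
      rw [hqr] at hxy
      obtain ⟨z, hz, hzx, hzy⟩ := hxy
      have h1 := hk K (i.1 * N2) hK (Dvd.intro_left _ rfl) hpos ⟨z, hz.1.1⟩ ⟨x.1, x.2.1⟩ hzx
      have h2 := hk K (i.1 * N2) hK (Dvd.intro_left _ rfl) hpos ⟨z, hz.1.1⟩ ⟨y.1, y.2.1⟩ hzy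
      have h3 := MC.mul_mem (MC.inv_mem h1) h2
      have h4 : ((κ ⟨z, hz.1.1⟩)⁻¹ * κ ⟨x.1, x.2.1⟩)⁻¹ * ((κ ⟨z, hz.1.1⟩)⁻¹ * κ ⟨y.1, y.2.1⟩) =
          (κ ⟨x.1, x.2.1⟩)⁻¹ * κ ⟨y.1, y.2.1⟩ := by group
      rw [h4] at h3
      exact h3

end Pool.CS
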