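import Pool.Agent.Work.MP_64ea0f_cs.InterfaceA

set_option autoImplicit false

/-! # Block INFO: roots with `|B φ ψ| ≥ 1`, `ψ ≠ ± φ`, give a product of infinite order
(adapted from helper91's `MP_7084a3_h91/B/INFO.lean`) -/

namespace Pool.CS

namespace InfoH

/-- the solution with `s 0 = 0`, `s 1 = 1` of the recursion -/
noncomputable def sq (τ : ℝ) : ℕ → ℝ
  | 0 => 0
  | 1 => 1
  | j + 2 => τ * sq τ (j + 1) - sq τ j

theorem sq_mono {τ : ℝ} (hτ : 2 ≤ τ) (j : ℕ) : 0 ≤ sq τ j ∧ sq τ j + 1 ≤ sq τ (j + 1) := by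
  induction j with
  | zero => simp [sq]
  | succ j ih =>
    obtain ⟨h1, h2⟩ := ih
    refine ⟨by linarith, ?_⟩
    rw [sq]
    nlinarith

theorem xs_sq {V : Type} [AddCommGroup V] [Module ℝ V] {x : ℕ → V} {τ : ℝ}
    (h : ∀ j, x (j + 2) = τ • x (j + 1) - x j) (j : ℕ) :
    x (j + 1) = sq τ (j + 1) • x 1 - sq τ j • x 0 ∧
      x (j + 2) = sq τ (j + 2) • x 1 - sq τ (j + 1) • x 0 := by
  induction j with
  | zero =>
    refine ⟨by simp [sq], ?_⟩
    rw [h 0]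
    simp [sq]
  | succ j ih =>
    refine ⟨ih.2, ?_⟩
    rw [show j + 1 + 2 = (j + 1) + 2 from rfl, h (j + 1)]
    have e1 : sq τ (j + 1 + 2) = τ * sq τ (j + 2) - sq τ (j + 1) := rfl
    have e2 : sq τ (j + 1 + 1) = τ * sq τ (j + 1) - sq τ j := rfl
    rw [show j + 1 + 1 = j + 2 from rfl, ih.2, ih.1, e1]
    rw [show j + 1 + 1 = j + 2 from rfl] at e2
    rw [e2]
    module

end InfoH

theorem info_thm (h1 : Stmt_BAS) : Stmt_INFO := by
  intro D φ hφ ψ hψ hb hne hne' k hk hone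
  obtain ⟨hs, hl, -, -, hinv, hrt, -, -, -, hrf, -, -, -, -, -, -⟩ := h1 D
  have e1 := hrt _ hφ
  have e2 := hrt _ hψ
  have r1 := hrf _ hφ
  have r2 := hrf _ hψ
  set r₁ := D.rf φ with hr₁
  set r₂ := D.rf ψ with hr₂
  set b := D.B φ ψ with hbdef
  have hsb : D.B ψ φ = b := hs ψ φ
  have a1 : D.ρ (r₁ * r₂) φ = (4 * b ^ 2 - 1) • φ - (2 * b) • ψ := by
    rw [map_mul, Module.End.mul_apply, r2 φ, map_sub, map_smul, r1 φ, r1 ψ, e1, hsb]
    module
  have a2 : D.ρ (r₁ * r₂) ψ = (2 * b) • φ - ψ := by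
    rw [map_mul, Module.End.mul_apply, r2 ψ, e2, map_sub, map_smul, r1 ψ, hsb]
    module
  have a3 : ∀ j, D.ρ ((r₁ * r₂) ^ (j + 2)) φ =
      (4 * b ^ 2 - 2) • D.ρ ((r₁ * r₂) ^ (j + 1)) φ - D.ρ ((r₁ * r₂) ^ j) φ := by
    intro j
    have h3 : D.ρ ((r₁ * r₂) ^ 2) φ = (4 * b ^ 2 - 2) • D.ρ (r₁ * r₂) φ - φ := by
      rw [pow_two, map_mul, Module.End.mul_apply, a1, map_sub, map_smul, map_smul, a1, a2]
      module
    have h5 : D.ρ ((r₁ * r₂) ^ (j + 1)) φ = D.ρ ((r₁ * r₂) ^ j) (D.ρ (r₁ * r₂) φ) := by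
      rw [pow_succ, map_mul, Module.End.mul_apply]
    rw [h5, pow_add, map_mul, Module.End.mul_apply, h3, map_sub, map_smul]
  have hb' : 1 ≤ b ^ 2 := by
    rw [← sq_abs]
    have := abs_nonneg b
    nlinarith
  have hb0 : b ≠ 0 := by
    intro h
    rw [h] at hb'
    norm_num at hb'
  set τ := 4 * b ^ 2 - 2 with hτ
  have hτ2 : 2 ≤ τ := by linarith
  obtain ⟨n, rfl⟩ : ∃ n, k = n + 1 := ⟨k - 1, by omega⟩
  have h5 := (InfoH.xs_sq (x := fun j => D.ρ ((r₁ * r₂) ^ j) φ) a3 n).1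
  have h6 : D.ρ ((r₁ * r₂) ^ (n + 1)) φ = φ := by
    rw [hone, map_one]
    rfl
  have h7 : D.ρ ((r₁ * r₂) ^ 0) φ = φ := by
    rw [pow_zero, map_one]
    rfl
  simp only [h6, h7, pow_one] at h5
  obtain ⟨h9, h10⟩ := InfoH.sq_mono hτ2 n
  set p := InfoH.sq τ (n + 1) with hp
  set q := InfoH.sq τ n with hq
  have hp0 : 0 < p := by linarith
  -- `ρ (r₁ r₂) φ = L φ`
  set L := (1 + q) / p with hL
  have hLpos : 0 < L := by
    rw [hL]
    positivity
  have h11 : D.ρ (r₁ * r₂) φ = L • φ := by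
    have h12 : p • D.ρ (r₁ * r₂) φ = (1 + q) • φ := by
      have : p • D.ρ (r₁ * r₂) φ = (p • D.ρ (r₁ * r₂) φ - q • φ) + q • φ := by module
      rw [this, ← h5]
      module
    have h13 : (p⁻¹ * p) • D.ρ (r₁ * r₂) φ = (p⁻¹ * (1 + q)) • φ := by
      rw [mul_smul, h12, mul_smul]
    rw [inv_mul_cancel₀ hp0.ne', one_smul] at h13
    rw [h13, hL, div_eq_inv_mul]
  have hbs : ∀ (a c : ℝ) (x y : D.V), D.B (a • x) (c • y) = a * c * D.B x y := by
    intro a c x y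
    have h14 := hl a 0 x 0 (c • y)
    have h15 := hl c 0 y 0 x
    have h16 : a • x + (0 : ℝ) • (0 : D.V) = a • x := by simp
    have h17 : c • y + (0 : ℝ) • (0 : D.V) = c • y := by simp
    rw [h16] at h14
    rw [h17] at h15
    rw [h14, hs x (c • y), h15, hs y x]
    ring
  have h18 : L = 1 := by
    have h19 := hinv (r₁ * r₂) φ φ
    rw [h11, hbs, e1] at h19
    nlinarith
  rw [h18, one_smul, a1] at h11
  -- `ψ` is proportional to `φ`
  have h20 : ψ = ((4 * b ^ 2 - 2) / (2 * b)) • φ := by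
    have h21 : (2 * b) • ψ = (4 * b ^ 2 - 2) • φ := by
      have : (2 * b) • ψ = (4 * b ^ 2 - 1) • φ - ((4 * b ^ 2 - 1) • φ - (2 * b) • ψ) := by
        module
      rw [this, h11]
      module
    have h22 : ((2 * b)⁻¹ * (2 * b)) • ψ = ((2 * b)⁻¹ * (4 * b ^ 2 - 2)) • φ := by
      rw [mul_smul, h21, mul_smul]
    rw [inv_mul_cancel₀ (mul_ne_zero two_ne_zero hb0), one_smul] at h22
    rw [div_eq_inv_mul]
    exact h22
  set μ := (4 * b ^ 2 - 2) / (2 * b) with hμ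
  have h23 : μ ^ 2 = 1 := by
    rw [h20, hbs, e1] at e2
    linarith
  rcases sq_eq_one_iff.1 h23 with h24 | h24
  · exact hne (by rw [h20, h24, one_smul])
  · exact hne' (by rw [h20, h24]; module)

end Pool.CS
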